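import Mathlib
import Pool.Agent.Helper92.UQ.Goals

/-! Project T3 (MP_a41896_nt), packet INDS. -/

namespace Pool.Agent.Helper96.UQ.INDS

open MvPolynomial Finset

/-- The partial sums. -/
noncomputable def FS {Ω σ : Type} [Field Ω] [Fintype σ] [DecidableEq σ] (X : σ → PowerSeries Ω)
    (R : MvPolynomial σ Ω) (s : Finset σ) (p : σ → ℕ) (β : σ → ℕ) : Ω :=
  ∑ α ∈ R.support.filter (fun α => ∀ i, i ∉ s → α i = β i),
    R.coeff α * ∏ k ∈ s, PowerSeries.coeff (p k) (X k ^ α k)

lemma step {Ω σ : Type} [Field Ω] [Fintype σ] [DecidableEq σ] {X : σ → PowerSeries Ω}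
    (hX : ∀ k (q : Polynomial Ω), Polynomial.aeval (X k) q = 0 → q = 0) {R : MvPolynomial σ Ω}
    {s : Finset σ} {k : σ} (hk : k ∉ s) (h : ∀ p β, FS X R (insert k s) p β = 0) :
    ∀ p β, FS X R s p β = 0 := by
  intro p β
  set A := R.support.filter (fun α => ∀ i, i ∉ insert k s → α i = β i) with hA
  set q : Polynomial Ω := ∑ α ∈ A, Polynomial.monomial (α k)
    (R.coeff α * ∏ i ∈ s, PowerSeries.coeff (p i) (X i ^ α i)) with hq
  have hq0 : q = 0 := by
    apply hX k
    rw [hq, map_sum]
    ext n
    rw [map_sum]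
    have h1 := h (Function.update p k n) β
    unfold FS at h1
    rw [← hA] at h1
    rw [map_zero, ← h1]
    refine Finset.sum_congr rfl fun α _ => ?_
    rw [Polynomial.aeval_monomial, Finset.prod_insert hk, Function.update_self]
    have h2 : ∏ i ∈ s, PowerSeries.coeff (Function.update p k n i) (X i ^ α i) =
        ∏ i ∈ s, PowerSeries.coeff (p i) (X i ^ α i) := by
      refine Finset.prod_congr rfl fun i hi => ?_
      rw [Function.update_of_ne]
      intro h3
      rw [h3] at hi
      exact hk hi
    rw [h2]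
    have h3 : (algebraMap Ω (PowerSeries Ω)) (R.coeff α * ∏ i ∈ s, PowerSeries.coeff (p i) (X i ^ α i)) =
        PowerSeries.C (R.coeff α * ∏ i ∈ s, PowerSeries.coeff (p i) (X i ^ α i)) := rfl
    rw [h3, PowerSeries.coeff_C_mul]
    ring
  have h4 : q.coeff (β k) = FS X R s p β := by
    rw [hq, Polynomial.finsetSum_coeff]
    simp only [Polynomial.coeff_monomial]
    rw [← Finset.sum_filter, hA, Finset.filter_filter]
    unfold FS
    refine Finset.sum_congr ?_ fun _ _ => rfl
    ext α
    rw [Finset.mem_filter, Finset.mem_filter]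
    constructor
    · rintro ⟨h5, h6, h7⟩
      refine ⟨h5, fun i hi => ?_⟩
      by_cases hik : i = k
      · rw [hik, h7]
      · exact h6 i (by rw [Finset.mem_insert]; tauto)
    · rintro ⟨h5, h6⟩
      exact ⟨h5, fun i hi => h6 i (by rw [Finset.mem_insert] at hi; tauto), h6 k hk⟩
  rw [← h4, hq0, Polynomial.coeff_zero]

lemma down {Ω σ : Type} [Field Ω] [Fintype σ] [DecidableEq σ] {X : σ → PowerSeries Ω}
    (hX : ∀ k (q : Polynomial Ω), Polynomial.aeval (X k) q = 0 → q = 0) {R : MvPolynomial σ Ω}
    (s : Finset σ) : (∀ p β, FS X R s p β = 0) → ∀ p β, FS X R ∅ p β = 0 := by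
  induction s using Finset.induction_on with
  | empty => exact fun h => h
  | insert k s hk ih => exact fun h => ih (step hX hk h)

theorem t : Pool.Agent.Helper92.UQ.INDS := by
  intro K Ω _ _ _ _ σ _ _ X hX R hR
  classical
  -- the coefficients
  have hc : ∀ p : σ →₀ ℕ, ∑ α ∈ R.support, R.coeff α * ∏ k, PowerSeries.coeff (p k) (X k ^ α k) = 0 := by
    intro p
    set m := ∑ k, p k with hm
    set Q : MvPolynomial σ Ω := ∑ l ∈ finsuppAntidiag (univ : Finset σ) m,
      MvPolynomial.monomial l (∑ α ∈ R.support, R.coeff α * ∏ k, PowerSeries.coeff (l k) (X k ^ α k)) with hQ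
    have hQ0 : Q = 0 := by
      refine MvPolynomial.funext_set (fun _ => Set.range (algebraMap K Ω))
        (fun _ => Set.infinite_range_of_injective (algebraMap K Ω).injective) fun x hx => ?_
      have hx' : ∀ k, ∃ a : K, algebraMap K Ω a = x k := fun k => hx k (Set.mem_univ k)
      choose a ha using hx'
      have h1 := congrArg (PowerSeries.coeff m) (hR a)
      rw [map_zero, MvPolynomial.aeval_def, MvPolynomial.eval₂_eq', map_sum] at h1
      rw [map_zero, ← h1, hQ, map_sum]
      simp only [MvPolynomial.eval_monomial]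
      have h2 : ∀ α ∈ R.support, PowerSeries.coeff m ((algebraMap Ω (PowerSeries Ω)) (R.coeff α) *
          ∏ k, (PowerSeries.rescale (algebraMap K Ω (a k)) (X k)) ^ α k) =
          ∑ l ∈ finsuppAntidiag (univ : Finset σ) m, R.coeff α *
            ∏ k, (x k ^ l k * PowerSeries.coeff (l k) (X k ^ α k)) := by
        intro α _
        have h3 : (algebraMap Ω (PowerSeries Ω)) (R.coeff α) = PowerSeries.C (R.coeff α) := rfl
        rw [h3, PowerSeries.coeff_C_mul]
        simp only [← map_pow]
        rw [PowerSeries.coeff_prod, Finset.mul_sum]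
        refine Finset.sum_congr rfl fun l _ => ?_
        congr 1
        refine Finset.prod_congr rfl fun k _ => ?_
        rw [PowerSeries.coeff_rescale, ha]
      rw [Finset.sum_congr rfl h2, Finset.sum_comm]
      refine Finset.sum_congr rfl fun l _ => ?_
      rw [Finset.sum_mul]
      refine Finset.sum_congr rfl fun α _ => ?_
      rw [Finset.prod_mul_distrib, Finsupp.prod_fintype _ _ (fun i => pow_zero _)]
      ring
    have h1 := congrArg (MvPolynomial.coeff p) hQ0
    rw [MvPolynomial.coeff_zero, hQ, MvPolynomial.coeff_sum] at h1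
    simp only [MvPolynomial.coeff_monomial] at h1
    rw [Finset.sum_ite_eq' (finsuppAntidiag (univ : Finset σ) m) p, if_pos] at h1
    · exact h1
    · rw [Finset.mem_finsuppAntidiag]
      exact ⟨hm.symm, Finset.subset_univ _⟩
  have h1 : ∀ p β : σ → ℕ, FS X R univ p β = 0 := by
    intro p β
    unfold FS
    rw [Finset.filter_true_of_mem (fun α _ i hi => absurd (Finset.mem_univ i) hi)]
    exact hc (Finsupp.equivFunOnFinite.symm p)
  have h2 := down hX univ h1
  ext α
  have h3 := h2 0 α
  unfold FS at h3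
  rw [MvPolynomial.coeff_zero]
  by_cases hα : α ∈ R.support
  · have h4 : R.support.filter (fun α' : σ →₀ ℕ => ∀ i, i ∉ (∅ : Finset σ) → α' i = (α : σ → ℕ) i) = {α} := by
      ext α'
      rw [Finset.mem_filter, Finset.mem_singleton]
      constructor
      · rintro ⟨_, h5⟩
        exact Finsupp.ext fun i => h5 i (Finset.notMem_empty i)
      · rintro rfl
        exact ⟨hα, fun i _ => rfl⟩
    rw [h4, Finset.sum_singleton, Finset.prod_empty, mul_one] at h3
    exact h3
  · exact MvPolynomial.notMem_support_iff.1 hα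

end Pool.Agent.Helper96.UQ.INDS
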